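import Mathlib

/-!
# Iterated commutators of an element with its conjugates, and the locally finite radical
-/

set_option autoImplicit false

namespace Pool.Agent.N52.HA

open Subgroup
open scoped commutatorElement

universe u

section
variable {G : Type u} [Group G]

/-- `v₀ = z`, `v_{i+1} = [v_i, g_i v_i g_i⁻¹]` -/
def v (z : G) (g : ℕ → G) : ℕ → G
  | 0 => z
  | i + 1 => ⁅v z g i, g i * v z g i * (g i)⁻¹⁆

@[simp] theorem v_zero (z : G) (g : ℕ → G) : v z g 0 = z := rfl

theorem v_succ (z : G) (g : ℕ → G) (i : ℕ) :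
    v z g (i + 1) = ⁅v z g i, g i * v z g i * (g i)⁻¹⁆ := rfl

theorem map_v {H : Type*} [Group H] (f : G →* H) (z : G) (g : ℕ → G) (i : ℕ) :
    f (v z g i) = v (f z) (fun j => f (g j)) i := by
  induction i with
  | zero => rfl
  | succ i ih => rw [v_succ, v_succ, map_commutatorElement, map_mul, map_mul, map_inv, ih]

theorem v_congr {z : G} {g h : ℕ → G} {i : ℕ} (hgh : ∀ j < i, g j = h j) :
    v z g i = v z h i := by
  induction i with
  | zero => rfl
  | succ i ih =>
    rw [v_succ, v_succ, ih fun j hj => hgh j (by omega), hgh i (by omega)]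

theorem v_of_eq_one {z : G} {g : ℕ → G} {i j : ℕ} (h : v z g i = 1) (hij : i ≤ j) :
    v z g j = 1 := by
  induction j, hij using Nat.le_induction with
  | base => exact h
  | succ j _ ih => rw [v_succ, ih]; simp

theorem v_mem_derivedSeries (z : G) (g : ℕ → G) (i : ℕ) : v z g i ∈ derivedSeries G i := by
  induction i with
  | zero => exact mem_top _
  | succ i ih =>
    rw [v_succ, derivedSeries_succ]
    exact commutator_mem_commutator ih ((derivedSeries_normal G i).conj_mem _ ih _)

theorem rot_le (N H₁ H₂ H₃ : Subgroup G) [N.Normal]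
    (h1 : ⁅⁅H₂, H₃⁆, H₁⁆ ≤ N) (h2 : ⁅⁅H₃, H₁⁆, H₂⁆ ≤ N) : ⁅⁅H₁, H₂⁆, H₃⁆ ≤ N := by
  have key : ∀ K : Subgroup G, K ≤ N ↔ K.map (QuotientGroup.mk' N) = ⊥ := by
    intro K
    rw [Subgroup.map_eq_bot_iff, QuotientGroup.ker_mk']
  rw [key, Subgroup.map_commutator, Subgroup.map_commutator] at h1 h2 ⊢
  exact Subgroup.commutator_commutator_eq_bot_of_rotate h1 h2

theorem lcs_comm (b : ℕ) : ∀ a : ℕ,
    ⁅(⊤ : Subgroup G).lowerCentralSeries a, (⊤ : Subgroup G).lowerCentralSeries b⁆ ≤
      (⊤ : Subgroup G).lowerCentralSeries (a + b + 1) := by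
  induction b with
  | zero => intro a; exact le_of_eq rfl
  | succ b ih =>
    intro a
    rw [Subgroup.commutator_comm, Subgroup.lowerCentralSeries_succ]
    refine rot_le _ _ _ _ ?_ ?_
    · rw [Subgroup.commutator_comm (⊤ : Subgroup G), ← Subgroup.lowerCentralSeries_succ]
      have := ih (a + 1)
      rwa [show a + 1 + b + 1 = a + (b + 1) + 1 by omega] at this
    · rw [show a + (b + 1) + 1 = (a + b + 1) + 1 by omega, Subgroup.lowerCentralSeries_succ]
      exact Subgroup.commutator_mono (ih a) le_rfl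

/-- `v_i` lies in the term of index `2 ^ (i + 1) - 2` (`γ_{2 ^ (i + 1) - 1}`) of the lower central
series -/
theorem v_mem_lcs (z : G) (g : ℕ → G) (i : ℕ) :
    v z g i ∈ (⊤ : Subgroup G).lowerCentralSeries (2 ^ (i + 1) - 2) := by
  induction i with
  | zero => exact mem_top _
  | succ i ih =>
    set c := 2 ^ (i + 1) - 2 with hc
    have h0 : 2 ^ (i + 1 + 1) - 2 = c + (c + 1) + 1 := by
      have : 2 ≤ 2 ^ (i + 1) := by
        calc 2 = 2 ^ 1 := by norm_num
          _ ≤ 2 ^ (i + 1) := Nat.pow_le_pow_right (by norm_num) (by omega)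
      rw [pow_succ 2 (i + 1)]
      omega
    rw [h0]
    have h1 : ⁅g i, v z g i⁆ ∈ (⊤ : Subgroup G).lowerCentralSeries (c + 1) := by
      rw [Subgroup.lowerCentralSeries_succ, Subgroup.commutator_comm]
      exact commutator_mem_commutator (mem_top _) ih
    have h2 : v z g (i + 1) = ⁅v z g i, ⁅g i, v z g i⁆⁆ := by
      rw [v_succ]
      simp only [commutatorElement_def]
      group
    rw [h2]
    exact lcs_comm (c + 1) c (commutator_mem_commutator ih h1)

/-- if all `z, g` satisfy `v z g i = 1` for some `i`, then a nontrivial `z` gives an element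
commuting with all its conjugates -/
theorem exists_comm_conj (z : G) (hz : z ≠ 1) (h : ∀ g : ℕ → G, ∃ i, v z g i = 1) :
    ∃ w : G, w ≠ 1 ∧ w ∈ normalClosure {z} ∧ ∀ g : G, Commute w (g * w * g⁻¹) := by
  classical
  by_contra hcon
  push Not at hcon
  have h1 : ∀ w : G, w ≠ 1 → w ∈ normalClosure {z} → ∃ g : G, ⁅w, g * w * g⁻¹⁆ ≠ 1 := by
    intro w hw hwz
    obtain ⟨g, hg⟩ := hcon w hw hwz
    exact ⟨g, fun h2 => hg (commutatorElement_eq_one_iff_commute.1 h2)⟩
  let f : G → G := fun w =>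
    if hw : w ≠ 1 ∧ w ∈ normalClosure {z} then (h1 w hw.1 hw.2).choose else 1
  let ws : ℕ → G := fun i => Nat.rec z (fun _ w => ⁅w, f w * w * (f w)⁻¹⁆) i
  have hws : ∀ i, ws i ≠ 1 ∧ ws i ∈ normalClosure {z} := by
    intro i
    induction i with
    | zero => exact ⟨hz, subset_normalClosure rfl⟩
    | succ i ih =>
      have h2 : f (ws i) = (h1 (ws i) ih.1 ih.2).choose := dif_pos ih
      have h3 := (h1 (ws i) ih.1 ih.2).choose_spec
      rw [← h2] at h3
      refine ⟨h3, ?_⟩
      have hn : (normalClosure {z} : Subgroup G).Normal := normalClosure_normal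
      have h4 : f (ws i) * ws i * (f (ws i))⁻¹ ∈ normalClosure {z} := hn.conj_mem _ ih.2 _
      change ⁅ws i, f (ws i) * ws i * (f (ws i))⁻¹⁆ ∈ normalClosure {z}
      rw [commutatorElement_def]
      exact mul_mem (mul_mem (mul_mem ih.2 h4) (inv_mem ih.2)) (inv_mem h4)
  obtain ⟨i, hi⟩ := h fun i => f (ws i)
  have h5 : ∀ i, v z (fun i => f (ws i)) i = ws i := by
    intro i
    induction i with
    | zero => rfl
    | succ i ih => rw [v_succ, ih]
  exact (hws i).1 (by rw [← h5, hi])

/-- the normal closure of an element commuting with its conjugates is abelian -/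
theorem comm_normalClosure {w : G} (hw : ∀ g : G, Commute w (g * w * g⁻¹)) :
    ∀ a ∈ normalClosure {w}, ∀ b ∈ normalClosure {w}, a * b = b * a := by
  have h1 : ∀ a ∈ Group.conjugatesOfSet {w}, ∀ b ∈ Group.conjugatesOfSet {w}, a * b = b * a := by
    intro a ha b hb
    rw [Group.mem_conjugatesOfSet_iff] at ha hb
    obtain ⟨x, hx, hxa⟩ := ha
    obtain ⟨y, hy, hyb⟩ := hb
    rw [Set.mem_singleton_iff] at hx hy
    subst hx; subst hy
    obtain ⟨c, hc⟩ := isConj_iff.1 hxa
    obtain ⟨d, hd⟩ := isConj_iff.1 hyb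
    have h2 : Commute (c * y * c⁻¹) (d * y * d⁻¹) := by
      have h3 := hw (c⁻¹ * d)
      have h4 : Commute (MulAut.conj c y) (MulAut.conj c ((c⁻¹ * d) * y * (c⁻¹ * d)⁻¹)) :=
        h3.map (MulAut.conj c)
      simp only [MulAut.conj_apply] at h4
      have h5 : c * (c⁻¹ * d * y * (c⁻¹ * d)⁻¹) * c⁻¹ = d * y * d⁻¹ := by group
      rwa [h5] at h4
    rw [← hc, ← hd]
    exact h2
  have h2 := isMulCommutative_closure h1
  intro a ha b hb
  have h3 := h2.is_comm.comm (⟨a, ha⟩ : closure (Group.conjugatesOfSet {w})) ⟨b, hb⟩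
  exact congrArg Subtype.val h3

end

end Pool.Agent.N52.HA
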