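import Pool.Agent.N52.HA.Main

/-!
# Statements for the result file
-/

set_option autoImplicit false

namespace Pool.Agent.N52.HA

open Subgroup

universe u

theorem lf_of_v {G : Type u} [Group G] (hG : ∀ x : G, ∃ n : ℕ, 1 ≤ n ∧ x ^ n = 1)
    (h : ∀ (z : G) (g : ℕ → G), ∃ i, v z g i = 1) : ∀ S : Set G, S.Finite → Finite (closure S) := by
  refine lf_of_quotients hG fun R _ hRl htop hR => ?_
  have hnt : ∃ z : G, z ∉ R := by
    by_contra hcon
    push Not at hcon
    exact htop (eq_top_iff.2 fun x _ => hcon x)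
  obtain ⟨z, hz⟩ := hnt
  have hz1 : (QuotientGroup.mk' R z) ≠ 1 := by
    rwa [Ne, ← MonoidHom.mem_ker, QuotientGroup.ker_mk']
  obtain ⟨w, hw1, -, hw⟩ := exists_comm_conj (QuotientGroup.mk' R z) hz1 fun g => by
    choose g' hg' using fun i => QuotientGroup.mk'_surjective R (g i)
    obtain ⟨i, hi⟩ := h z g'
    refine ⟨i, ?_⟩
    have h2 := congrArg (QuotientGroup.mk' R) hi
    rw [map_v, map_one] at h2
    rw [← h2]
    exact v_congr fun j _ => (hg' j).symm
  exact ⟨w, hw1, hw⟩

/-- a soluble group of finite exponent is locally finite -/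
theorem finite_of_derived {m n l : ℕ} (hn : 1 ≤ n) (h : derivedSeries (B m n) l = ⊥) :
    Finite (B m n) := by
  have h1 := lf_of_v (G := B m n) (fun x => ⟨n, hn, b_pow m n x⟩)
    (fun z g => ⟨l, derived_law h z g⟩)
    (Set.range fun i : Fin m => (QuotientGroup.mk (FreeGroup.of i) : B m n)) (Set.finite_range _)
  have htop : closure (Set.range fun i : Fin m =>
      (QuotientGroup.mk (FreeGroup.of i) : B m n)) = ⊤ := by
    rw [eq_top_iff]
    rintro x -
    obtain ⟨w, rfl⟩ := QuotientGroup.mk_surjective x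
    induction w using FreeGroup.induction_on with
    | C1 => exact one_mem _
    | of i => exact subset_closure ⟨i, rfl⟩
    | inv_of i hi =>
      have := inv_mem hi
      exact this
    | mul a b ha hb =>
      have := mul_mem ha hb
      exact this
  rw [htop] at h1
  exact Finite.of_equiv _ (topEquiv (G := B m n)).toEquiv

/-- for every prime power `p ^ a > 5` exactly dividing `n = p ^ a m` there is a finite `s`-generator
group of exponent dividing `m` of order at least `l / (s - 1)` -/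
def LengthOK (s n l : ℕ) : Prop :=
  ∀ p a m : ℕ, p.Prime → n = p ^ a * m → ¬ p ∣ m → 5 < p ^ a →
    ∃ c, HasGroup s m c ∧ l ≤ (s - 1) * c

theorem prime_powers {s n l : ℕ} (hs : 1 ≤ s) (hn : 1 ≤ n) (hl : LengthOK s n l)
    (h : derivedSeries (B s n) l = ⊥) (p k : ℕ) (hp : p.Prime) (hk : p ^ k ∣ n) (h5 : 5 < p ^ k) :
    InL.{u} (p ^ k) := by
  obtain ⟨a, m, hm, hnm⟩ := Nat.exists_eq_pow_mul_and_not_dvd (by omega : n ≠ 0) p hp.ne_one
  have hka : k ≤ a := by
    rw [hnm] at hk
    have hc : Nat.Coprime (p ^ k) m := Nat.Coprime.pow_left _ ((Nat.Prime.coprime_iff_not_dvd hp).2 hm)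
    exact (Nat.pow_dvd_pow_iff_le_right hp.one_lt).1 (hc.dvd_of_dvd_mul_right hk)
  obtain ⟨c, hc, hlc⟩ := hl p a m hp hnm hm
    (lt_of_lt_of_le h5 (Nat.pow_le_pow_right hp.pos hka))
  have hpa : InL.{u} (p ^ a) := by
    refine inL_of_wreath (s := s) (m := m) (d := l) (Nat.pos_of_ne_zero (pow_ne_zero _ hp.ne_zero))
      hc ?_ ?_
    · obtain ⟨t, rfl⟩ : ∃ t, s = t + 1 := ⟨s - 1, by omega⟩
      rw [Nat.add_sub_cancel] at hlc
      rw [Nat.add_mul, one_mul]
      omega
    · rw [mul_comm m, ← hnm]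
      exact h
  intro G _ hG
  refine hpa G fun x => ?_
  obtain ⟨b, rfl⟩ := Nat.exists_eq_add_of_le hka
  rw [pow_add, pow_mul, hG, one_pow]

theorem isSolvable_of_derived {G : Type} [Group G] {l : ℕ} (h : derivedSeries G l = ⊥) :
    Group.IsSolvable G := ⟨l, h⟩

/-- the section theorem -/
theorem section_of_wreath {s m n c N : ℕ} (hQ : HasGroup s m c) (hN : N + c ≤ s * c + 1) :
    ∃ (K : Subgroup (B s (m * n))) (F : K →* B N n), Function.Surjective F := by
  obtain ⟨Q, _, _, a, ha, hQm, rfl⟩ := hQ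
  obtain ⟨t, ht⟩ := exists_gens ha N hN
    (fun i : Fin N => (QuotientGroup.mk (FreeGroup.of i) : B N n))
  obtain ⟨f, hf⟩ := exists_lift (wr_exp (b_pow N n) hQm) t
  have hle : closure (Set.range t) ≤ f.range := by
    rw [closure_le]
    rintro _ ⟨j, rfl⟩
    exact ⟨_, hf j⟩
  let K : Subgroup (B s (m * n)) := (base (B N n) Q).comap f
  let F : K →* B N n := ev.comp (f.subgroupComap (base (B N n) Q))
  refine ⟨K, F, ?_⟩
  rw [← MonoidHom.range_eq_top, eq_top_iff]
  rintro x -
  obtain ⟨w, rfl⟩ := QuotientGroup.mk_surjective x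
  induction w using FreeGroup.induction_on with
  | C1 => exact one_mem _
  | of i =>
    obtain ⟨w, hw, hwr, hwl⟩ := ht i
    obtain ⟨x, rfl⟩ := hle hw
    exact ⟨⟨x, hwr⟩, hwl⟩
  | inv_of i hi =>
    have := inv_mem hi
    exact this
  | mul a b ha hb =>
    have := mul_mem ha hb
    exact this

/-- the group `(ℤ/m)^s` -/
theorem hasGroup_abelian (s m : ℕ) (hm : 1 ≤ m) : HasGroup s m (m ^ s) := by
  classical
  have : NeZero m := ⟨by omega⟩
  refine ⟨Fin s → Multiplicative (ZMod m), inferInstance, inferInstance,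
    fun i => Pi.mulSingle i (Multiplicative.ofAdd 1), ?_, ?_, ?_⟩
  · rw [eq_top_iff]
    intro f _
    rw [← Finset.univ_prod_mulSingle f]
    refine _root_.prod_mem fun i _ => ?_
    have h1 : f i = (Multiplicative.ofAdd (1 : ZMod m)) ^ (Multiplicative.toAdd (f i)).val := by
      change f i = Multiplicative.ofAdd ((Multiplicative.toAdd (f i)).val • (1 : ZMod m))
      rw [nsmul_eq_mul, mul_one, ZMod.natCast_zmod_val]
      rfl
    rw [h1, Pi.mulSingle_pow]
    exact Subgroup.pow_mem _ (Subgroup.subset_closure (Set.mem_range_self i)) _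
  · intro q
    funext i
    have h1 : m • (Multiplicative.toAdd (q i)) = 0 := by
      rw [nsmul_eq_mul, ZMod.natCast_self, zero_mul]
    exact h1
  · rw [Nat.card_fun, Nat.card_fin]
    congr 1
    rw [Nat.card_congr Multiplicative.toAdd, Nat.card_zmod]

theorem lengthOK_abelian {s n l : ℕ} (hn : 1 ≤ n)
    (h : ∀ p a m : ℕ, p.Prime → n = p ^ a * m → ¬ p ∣ m → 5 < p ^ a → l ≤ (s - 1) * m ^ s) :
    LengthOK s n l := by
  intro p a m hp hnm hm h5
  refine ⟨m ^ s, hasGroup_abelian s m ?_, h p a m hp hnm hm h5⟩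
  rcases Nat.eq_zero_or_pos m with h0 | h0
  · rw [h0, mul_zero] at hnm
    omega
  · exact h0

end Pool.Agent.N52.HA
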