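import Pool.Agent.N52.HA.Basic

/-!
# Generators of wreath products with finite groups

Let `Q` be a finite group with generators `a₁, …, a_s`. The elements `u_j = (λ(·, j), a_j)` of the
wreath product `G ≀ Q` can be chosen such that the subgroup `T` they generate contains, in the base
group, elements whose values at `1` are `(s - 1) |Q| + 1` given elements of `G`: put `λ = 1` on the
edges of a spanning tree of the Cayley graph of `Q`, and the given elements on the other edges.
-/

set_option autoImplicit false

namespace Pool.Agent.N52.HA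

open Subgroup
open scoped Pointwise

universe u

section
variable {G : Type u} {Q : Type} [Group G] [Group Q]

theorem wr_pow_right (a : RegularWreathProduct G Q) (k : ℕ) : (a ^ k).right = a.right ^ k := by
  induction k with
  | zero => simp
  | succ k ih => rw [pow_succ, pow_succ, RegularWreathProduct.mul_right, ih]

theorem wr_pow_left (a : RegularWreathProduct G Q) (h : a.right = 1) (k : ℕ) (x : Q) :
    (a ^ k).left x = (a.left x) ^ k := by
  induction k with
  | zero => simp
  | succ k ih =>
    rw [pow_succ, pow_succ, RegularWreathProduct.mul_left, Pi.mul_apply, ih, wr_pow_right, h]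
    simp

theorem wr_exp {n m : ℕ} (hG : ∀ x : G, x ^ n = 1) (hQ : ∀ q : Q, q ^ m = 1)
    (a : RegularWreathProduct G Q) : a ^ (m * n) = 1 := by
  rw [pow_mul]
  have h1 : (a ^ m).right = 1 := by rw [wr_pow_right, hQ]
  refine RegularWreathProduct.ext ?_ ?_
  · funext x
    rw [wr_pow_left _ h1, hG]
    rfl
  · rw [wr_pow_right, h1, one_pow]
    rfl

/-- the base group -/
def base (G : Type u) (Q : Type) [Group G] [Group Q] : Subgroup (RegularWreathProduct G Q) :=
  (RegularWreathProduct.rightHom (D := G) (Q := Q)).ker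

theorem mem_base {w : RegularWreathProduct G Q} : w ∈ base G Q ↔ w.right = 1 := Iff.rfl

/-- evaluation at `1` on the base group -/
def ev : base G Q →* G where
  toFun w := w.1.left 1
  map_one' := rfl
  map_mul' a b := by
    have h : a.1.right = 1 := mem_base.1 a.2
    change (a.1 * b.1).left 1 = _
    rw [RegularWreathProduct.mul_left, Pi.mul_apply, h]
    simp

/-- the elements with labels `l` -/
def gens {s : ℕ} (a : Fin s → Q) (l : Q × Fin s → G) (j : Fin s) : RegularWreathProduct G Q :=
  ⟨fun x => l (x, j), a j⟩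

/-- the edges `T` connect the vertices `S` to `1` -/
def Tree {s : ℕ} (G : Type u) [Group G] (a : Fin s → Q) (S : Finset Q) (T : Finset (Q × Fin s)) :
    Prop :=
  ∀ l : Q × Fin s → G, (∀ e ∈ T, l e = 1) → ∀ x ∈ S,
    ∃ w ∈ closure (Set.range (gens a l)), w.right = x⁻¹ ∧ w.left 1 = 1

theorem exists_step {s : ℕ} {a : Fin s → Q} (ha : closure (Set.range a) = ⊤) [DecidableEq Q]
    {S : Finset Q} (h1 : (1 : Q) ∈ S) (hS : ∃ x, x ∉ S) :
    ∃ x ∈ S, ∃ j, (a j)⁻¹ * x ∉ S := by
  by_contra hcon
  push Not at hcon
  have h2 : ∀ j, (a j)⁻¹ • S = S := by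
    intro j
    refine Finset.eq_of_subset_of_card_le ?_ (by rw [Finset.card_smul_finset])
    intro y hy
    rw [Finset.mem_smul_finset] at hy
    obtain ⟨x, hx, rfl⟩ := hy
    exact hcon x hx j
  have h3 : closure (Set.range a) ≤ MulAction.stabilizer Q S := by
    rw [closure_le]
    rintro _ ⟨j, rfl⟩
    have : (a j)⁻¹ ∈ MulAction.stabilizer Q S := h2 j
    simpa using inv_mem this
  rw [ha] at h3
  obtain ⟨x, hx⟩ := hS
  apply hx
  have h4 : x • S = S := h3 (mem_top x)
  rw [← h4, Finset.mem_smul_finset]
  exact ⟨1, h1, by simp⟩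

theorem exists_tree (G : Type u) [Group G] {s : ℕ} {a : Fin s → Q} (ha : closure (Set.range a) = ⊤)
    [Fintype Q] [DecidableEq Q] (k : ℕ) (hk : k + 1 ≤ Fintype.card Q) :
    ∃ (S : Finset Q) (T : Finset (Q × Fin s)), (1 : Q) ∈ S ∧ S.card = k + 1 ∧ T.card ≤ k ∧
      Tree G a S T := by
  induction k with
  | zero =>
    refine ⟨{1}, ∅, by simp, by simp, by simp, fun l _ x hx => ⟨1, one_mem _, ?_, rfl⟩⟩
    rw [Finset.mem_singleton] at hx
    rw [hx, inv_one]
    rfl
  | succ k ih =>
    obtain ⟨S, T, h1, hS, hT, hST⟩ := ih (by omega)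
    have h2 : ∃ x, x ∉ S := by
      by_contra h
      push Not at h
      have : S = Finset.univ := by
        ext x
        simp [h x]
      rw [this, Finset.card_univ] at hS
      omega
    obtain ⟨x, hx, j, hj⟩ := exists_step ha h1 h2
    refine ⟨insert ((a j)⁻¹ * x) S, insert (x, j) T, Finset.mem_insert_of_mem h1, ?_, ?_, ?_⟩
    · rw [Finset.card_insert_of_notMem hj, hS]
    · exact (Finset.card_insert_le _ _).trans (by omega)
    · intro l hl y hy
      have hl' : ∀ e ∈ T, l e = 1 := fun e he => hl e (Finset.mem_insert_of_mem he)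
      rcases Finset.mem_insert.1 hy with rfl | hy
      · obtain ⟨w, hw, hwr, hwl⟩ := hST l hl' x hx
        refine ⟨w * gens a l j, mul_mem hw (subset_closure ⟨j, rfl⟩), ?_, ?_⟩
        · rw [RegularWreathProduct.mul_right, hwr]
          simp [gens]
        · rw [RegularWreathProduct.mul_left, Pi.mul_apply, hwl, hwr]
          simp only [gens, inv_inv, mul_one, one_mul]
          exact hl _ (Finset.mem_insert_self _ _)
      · exact hST l hl' y hy

/-- **The values of the base group part of an `s`-generator subgroup.** -/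
theorem exists_gens {s : ℕ} {a : Fin s → Q} (ha : closure (Set.range a) = ⊤) [Finite Q] (N : ℕ)
    (hN : N + Nat.card Q ≤ s * Nat.card Q + 1) (y : Fin N → G) :
    ∃ u : Fin s → RegularWreathProduct G Q, ∀ k, ∃ w ∈ closure (Set.range u),
      w.right = 1 ∧ w.left 1 = y k := by
  classical
  have := Fintype.ofFinite Q
  rw [Nat.card_eq_fintype_card] at hN
  have hQ : 1 ≤ Fintype.card Q := Fintype.card_pos
  obtain ⟨S, T, -, hS, hT, hST⟩ := exists_tree G ha (Fintype.card Q - 1) (by omega)
  have hSu : ∀ x, x ∈ S := by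
    have : S = Finset.univ := Finset.eq_univ_of_card S (by omega)
    intro x
    rw [this]
    exact Finset.mem_univ x
  have hc : Fintype.card (Fin N) ≤ Fintype.card (Tᶜ : Finset (Q × Fin s)) := by
    rw [Fintype.card_fin, Fintype.card_coe, Finset.card_compl, Fintype.card_prod, Fintype.card_fin,
      mul_comm]
    omega
  obtain ⟨i⟩ := Function.Embedding.nonempty_of_card_le hc
  have hinj : Function.Injective fun k => (i k : Q × Fin s) :=
    Subtype.val_injective.comp i.injective
  let l : Q × Fin s → G := Function.extend (fun k => (i k : Q × Fin s)) y fun _ => 1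
  have hl : ∀ e ∈ T, l e = 1 := by
    intro e he
    refine Function.extend_apply' _ _ _ ?_
    rintro ⟨k, hk⟩
    have := (i k).2
    rw [Finset.mem_compl] at this
    rw [hk] at this
    exact this he
  refine ⟨gens a l, fun k => ?_⟩
  have hk : l (i k : Q × Fin s) = y k := hinj.extend_apply _ _ _
  generalize (i k : Q × Fin s) = e at hk
  obtain ⟨x, j⟩ := e
  obtain ⟨w, hw, hwr, hwl⟩ := hST l hl x (hSu x)
  obtain ⟨t, ht, htr, htl⟩ := hST l hl ((a j)⁻¹ * x) (hSu _)
  refine ⟨w * gens a l j * t⁻¹, mul_mem (mul_mem hw (subset_closure ⟨j, rfl⟩)) (inv_mem ht), ?_, ?_⟩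
  · rw [RegularWreathProduct.mul_right, RegularWreathProduct.mul_right,
      RegularWreathProduct.inv_right, hwr, htr]
    simp [gens, mul_assoc]
  · rw [RegularWreathProduct.mul_left, Pi.mul_apply, RegularWreathProduct.mul_left, Pi.mul_apply,
      RegularWreathProduct.mul_right, RegularWreathProduct.inv_left, hwl, hwr, htr]
    have h1 : ((a j)⁻¹ * x)⁻¹ * ((x⁻¹ * (gens a l j).right)⁻¹ * 1) = 1 := by
      simp [gens, mul_assoc]
    beta_reduce
    rw [h1]
    simp only [Pi.inv_apply, htl, inv_one, mul_one, one_mul, inv_inv]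
    exact hk

end

end Pool.Agent.N52.HA
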