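import Pool.Agent.N52.HA.Radical
import Pool.Agent.N52.HA.Wreath

/-!
# Solubility of small derived length implies local finiteness
-/

set_option autoImplicit false

namespace Pool.Agent.N52.HA

open Subgroup

universe u

/-- `n ∈ 𝓛`: every group satisfying `x ^ n = 1` is locally finite. -/
def InL (n : ℕ) : Prop := ∀ (G : Type u) [Group G], (∀ x : G, x ^ n = 1) →
  ∀ S : Set G, S.Finite → Finite (Subgroup.closure S)

/-- The free Burnside group `B_{m,n}`. -/
abbrev B (m n : ℕ) : Type :=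
  FreeGroup (Fin m) ⧸ Subgroup.normalClosure (Set.range fun w : FreeGroup (Fin m) => w ^ n)

/-- the class of the `i`-th generator (`1` if `i ≥ m`) -/
def gen (m n i : ℕ) : B m n := if h : i < m then QuotientGroup.mk (FreeGroup.of ⟨i, h⟩) else 1

theorem b_pow (m n : ℕ) (x : B m n) : x ^ n = 1 := by
  obtain ⟨w, rfl⟩ := QuotientGroup.mk_surjective x
  rw [← QuotientGroup.mk_pow, QuotientGroup.eq_one_iff]
  exact subset_normalClosure ⟨w, rfl⟩

/-- the universal property -/
theorem exists_lift {G : Type u} [Group G] {m n : ℕ} (hG : ∀ x : G, x ^ n = 1) (y : Fin m → G) :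
    ∃ f : B m n →* G, ∀ i, f (QuotientGroup.mk (FreeGroup.of i)) = y i := by
  have hker : normalClosure (Set.range fun w : FreeGroup (Fin m) => w ^ n) ≤
      (FreeGroup.lift y).ker := by
    apply normalClosure_le_normal
    rintro _ ⟨w, rfl⟩
    simp [MonoidHom.mem_ker, hG]
  exact ⟨QuotientGroup.lift _ (FreeGroup.lift y) hker, fun i => by simp⟩

theorem law_of_gen {G : Type u} [Group G] {r n d : ℕ} (hG : ∀ x : G, x ^ n = 1)
    (h : v (gen (r + 1) n 0 ^ d) (fun i => gen (r + 1) n (i + 1)) r = 1) (z : G) (g : ℕ → G) :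
    v (z ^ d) g r = 1 := by
  obtain ⟨f, hf⟩ := exists_lift (m := r + 1) hG fun i : Fin (r + 1) =>
    if (i : ℕ) = 0 then z else g (i - 1)
  have h1 := congrArg f h
  rw [map_v, map_one] at h1
  have h0 : f (gen (r + 1) n 0) = z := by
    rw [gen, dif_pos (by omega), hf]
    simp
  rw [map_pow, h0] at h1
  rw [← h1]
  refine v_congr fun j hj => ?_
  rw [gen, dif_pos (by omega), hf]
  simp

/-- **The criterion.** -/
theorem inL_of_v {n r d : ℕ} (hn : 1 ≤ n) (hd : InL.{u} d)
    (h : v (gen (r + 1) n 0 ^ d) (fun i => gen (r + 1) n (i + 1)) r = 1) : InL.{u} n := by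
  intro G _ hG
  refine lf_of_quotients (fun x => ⟨n, hn, hG x⟩) fun R _ hRl htop hR => ?_
  have hQ : ∀ x : G ⧸ R, x ^ n = 1 := by
    intro x
    obtain ⟨y, rfl⟩ := QuotientGroup.mk'_surjective R x
    rw [← map_pow, hG, map_one]
  by_cases hd2 : ∀ x : G ⧸ R, x ^ d = 1
  · exfalso
    have h1 := hR ⊤ inferInstance fun S hS _ => hd (G ⧸ R) hd2 S hS
    apply htop
    rw [eq_top_iff]
    intro x _
    have h2 : (QuotientGroup.mk' R x) ∈ (⊤ : Subgroup (G ⧸ R)) := mem_top _
    rw [h1, mem_bot, ← MonoidHom.mem_ker, QuotientGroup.ker_mk'] at h2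
    exact h2
  · push Not at hd2
    obtain ⟨x, hx⟩ := hd2
    obtain ⟨w, hw1, -, hw⟩ := exists_comm_conj (x ^ d) hx fun g => ⟨r, law_of_gen hQ h x g⟩
    exact ⟨w, hw1, hw⟩

theorem inL_one : InL.{u} 1 := by
  intro G _ hG S _
  have : Subsingleton G := ⟨fun a b => by rw [← pow_one a, ← pow_one b, hG, hG]⟩
  infer_instance

/-- `G` is soluble of derived length at most `r - 1` or nilpotent of class at most `2 ^ r - 2` -/
def Short (G : Type u) [Group G] (r : ℕ) : Prop :=
  derivedSeries G (r - 1) = ⊥ ∨ (⊤ : Subgroup G).lowerCentralSeries (2 ^ r - 2) = ⊥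

theorem Short.v_eq {G : Type u} [Group G] {r : ℕ} (h : Short G r) (hr : 1 ≤ r) (z : G)
    (g : ℕ → G) : v z g (r - 1) = 1 := by
  rcases h with h | h
  · have := v_mem_derivedSeries z g (r - 1)
    rwa [h, mem_bot] at this
  · have := v_mem_lcs z g (r - 1)
    rwa [Nat.sub_add_cancel hr, h, mem_bot] at this

theorem inL_of_short {n r : ℕ} (hn : 1 ≤ n) (hr : 1 ≤ r) (h : Short (B r n) r) : InL.{u} n := by
  obtain ⟨r, rfl⟩ : ∃ k, r = k + 1 := ⟨r - 1, by omega⟩
  exact inL_of_v (d := 1) hn inL_one (h.v_eq hr _ _)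

/-- the criterion for groups -/
theorem lf_of_short {G : Type u} [Group G] (hG : ∀ x : G, ∃ n : ℕ, 1 ≤ n ∧ x ^ n = 1) {r : ℕ}
    (hr : 1 ≤ r) (h : ∀ a : Fin r → G, Short (closure (Set.range a)) r) :
    ∀ S : Set G, S.Finite → Finite (closure S) := by
  refine lf_of_quotients hG fun R _ hRl htop hR => ?_
  have hnt : ∃ z : G, z ∉ R := by
    by_contra hcon
    push Not at hcon
    exact htop (eq_top_iff.2 fun x _ => hcon x)
  obtain ⟨z, hz⟩ := hnt
  have hz1 : (QuotientGroup.mk' R z) ≠ 1 := by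
    rwa [Ne, ← MonoidHom.mem_ker, QuotientGroup.ker_mk']
  obtain ⟨w, hw1, -, hw⟩ := exists_comm_conj (QuotientGroup.mk' R z) hz1 fun g => by
    refine ⟨r - 1, ?_⟩
    choose g' hg' using fun i => QuotientGroup.mk'_surjective R (g i)
    have h1 : v z g' (r - 1) = 1 := by
      let a : Fin r → G := fun i => if (i : ℕ) = 0 then z else g' (i - 1)
      have hz' : z ∈ closure (Set.range a) :=
        subset_closure ⟨⟨0, by omega⟩, by simp [a]⟩
      have hg'' : ∀ i, (if i < r - 1 then g' i else 1) ∈ closure (Set.range a) := by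
        intro i
        split_ifs with hi
        · exact subset_closure ⟨⟨i + 1, by omega⟩, by simp [a]⟩
        · exact one_mem _
      have h2 := (h a).v_eq hr ⟨z, hz'⟩ fun i => ⟨_, hg'' i⟩
      have h3 := congrArg (closure (Set.range a)).subtype h2
      rw [map_v, map_one] at h3
      rw [← h3]
      refine v_congr fun j hj => ?_
      simp [hj]
    have h2 := congrArg (QuotientGroup.mk' R) h1
    rw [map_v, map_one] at h2
    rw [← h2]
    exact v_congr fun j _ => (hg' j).symm
  exact ⟨w, hw1, hw⟩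

/-- there is a finite group of order `c` and exponent dividing `m` with `s` generators -/
def HasGroup (s m c : ℕ) : Prop :=
  ∃ (Q : Type) (_ : Group Q) (_ : Finite Q) (a : Fin s → Q), closure (Set.range a) = ⊤ ∧
    (∀ q : Q, q ^ m = 1) ∧ Nat.card Q = c

theorem wreath_law {s m n c d : ℕ} (hQ : HasGroup s m c) (hd : d + c ≤ s * c)
    (h : ∀ (z : B s (m * n)) (g : ℕ → B s (m * n)), v z g d = 1)
    (G : Type u) [Group G] (hG : ∀ x : G, x ^ n = 1) (z : G) (g : ℕ → G) : v z g d = 1 := by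
  obtain ⟨Q, _, _, a, ha, hQm, rfl⟩ := hQ
  obtain ⟨t, ht⟩ := exists_gens ha (d + 1) (by omega)
    (fun i : Fin (d + 1) => if (i : ℕ) = 0 then z else g (i - 1))
  obtain ⟨f, hf⟩ := exists_lift (wr_exp hG hQm) t
  have hle : closure (Set.range t) ≤ f.range := by
    rw [closure_le]
    rintro _ ⟨j, rfl⟩
    exact ⟨_, hf j⟩
  have h1 : ∀ k : Fin (d + 1), ∃ x : B s (m * n), f x ∈ base G Q ∧
      (f x).left 1 = if (k : ℕ) = 0 then z else g (k - 1) := by
    intro k
    obtain ⟨w, hw, hwr, hwl⟩ := ht k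
    obtain ⟨x, rfl⟩ := hle hw
    exact ⟨x, hwr, hwl⟩
  choose x hx1 hx2 using h1
  let K : Subgroup (B s (m * n)) := (base G Q).comap f
  let F : K →* G := ev.comp (f.subgroupComap (base G Q))
  let x' : ℕ → K := fun k => if hk : k < d + 1 then ⟨x ⟨k, hk⟩, hx1 _⟩ else 1
  have hx' : ∀ k, k < d + 1 → F (x' k) = if k = 0 then z else g (k - 1) := by
    intro k hk
    have h2 := hx2 ⟨k, hk⟩
    simp only [x', dif_pos hk]
    exact h2
  have h2 : v (x' 0) (fun i => x' (i + 1)) d = 1 := by
    apply Subtype.val_injective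
    have h3 := map_v K.subtype (x' 0) (fun i => x' (i + 1)) d
    change K.subtype _ = 1
    rw [h3]
    exact h _ _
  have h3 := congrArg F h2
  rw [map_v, map_one, hx' 0 (by omega)] at h3
  rw [← h3]
  refine v_congr fun j hj => ?_
  rw [hx' (j + 1) (by omega)]
  simp

theorem inL_of_law {n d : ℕ} (hn : 1 ≤ n)
    (h : ∀ (G : Type) [Group G], (∀ x : G, x ^ n = 1) → ∀ (z : G) (g : ℕ → G), v z g d = 1) :
    InL.{u} n :=
  inL_of_v (r := d) (d := 1) hn inL_one (h _ (b_pow _ _) _ _)

theorem derived_law {G : Type u} [Group G] {d : ℕ} (h : derivedSeries G d = ⊥) (z : G)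
    (g : ℕ → G) : v z g d = 1 := by
  have := v_mem_derivedSeries z g d
  rwa [h, mem_bot] at this

theorem inL_of_wreath {s m n c d : ℕ} (hn : 1 ≤ n) (hQ : HasGroup s m c) (hd : d + c ≤ s * c)
    (h : derivedSeries (B s (m * n)) d = ⊥) : InL.{u} n :=
  inL_of_law (d := d) hn fun G _ hG z g => wreath_law hQ hd (derived_law h) G hG z g

/-- finiteness is transferred to `(s - 1) c + 1` generators -/
theorem finite_of_wreath {s m n c N : ℕ} (hQ : HasGroup s m c) (hN : N + c ≤ s * c + 1)
    (h : Finite (B s (m * n))) : Finite (B N n) := by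
  obtain ⟨Q, _, _, a, ha, hQm, rfl⟩ := hQ
  obtain ⟨t, ht⟩ := exists_gens ha N hN
    (fun i : Fin N => (QuotientGroup.mk (FreeGroup.of i) : B N n))
  obtain ⟨f, hf⟩ := exists_lift (wr_exp (b_pow N n) hQm) t
  have hle : closure (Set.range t) ≤ f.range := by
    rw [closure_le]
    rintro _ ⟨j, rfl⟩
    exact ⟨_, hf j⟩
  let K : Subgroup (B s (m * n)) := (base (B N n) Q).comap f
  let F : K →* B N n := ev.comp (f.subgroupComap (base (B N n) Q))
  have hF : Function.Surjective F := by
    rw [← MonoidHom.range_eq_top, eq_top_iff]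
    rintro x -
    obtain ⟨w, rfl⟩ := QuotientGroup.mk_surjective x
    induction w using FreeGroup.induction_on with
    | C1 => exact one_mem _
    | of i =>
      obtain ⟨w, hw, hwr, hwl⟩ := ht i
      obtain ⟨x, rfl⟩ := hle hw
      exact ⟨⟨x, hwr⟩, hwl⟩
    | inv_of i hi =>
      have := inv_mem hi
      exact this
    | mul a b ha hb =>
      have := mul_mem ha hb
      exact this
  exact Finite.of_surjective F hF

end Pool.Agent.N52.HA
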