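import Pool.Agent.N52.HA.Basic

/-!
# The locally finite radical, and the criterion for local finiteness
-/

set_option autoImplicit false

namespace Pool.Agent.N52.HA

open Subgroup

universe u

section
variable {G : Type u} [Group G]

/-- the subgroup `N` is locally finite -/
def LFs (N : Subgroup G) : Prop := ∀ S : Set G, S.Finite → S ⊆ N → Finite (closure S)

theorem lfs_ext {N : Subgroup G} [N.Normal] (hN : LFs N) {A : Subgroup G}
    (hA : LFs (A.map (QuotientGroup.mk' N))) : LFs A := by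
  intro S hS hSA
  let f := QuotientGroup.mk' N
  let φ : closure S →* G ⧸ N := f.comp (closure S).subtype
  have h1 : φ.range = closure (f '' S) := by
    rw [MonoidHom.range_comp, range_subtype, MonoidHom.map_closure]
  have h2 : Finite (closure (f '' S)) := hA _ (hS.image _) (by
    rintro _ ⟨x, hx, rfl⟩
    exact ⟨x, hSA hx, rfl⟩)
  have h3 : Finite φ.range := by rw [h1]; exact h2
  have hSf : Finite S := hS.to_subtype
  have h4 : Group.FG (closure S) := inferInstance
  have h5 : φ.ker.FiniteIndex := inferInstance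
  have h6 : Group.FG φ.ker := inferInstance
  obtain ⟨T, hT⟩ := (Group.fg_iff_subgroup_fg φ.ker).1 h6
  have h7 : Finite (closure ((closure S).subtype '' (T : Set (closure S)))) := by
    refine hN _ (T.finite_toSet.image _) ?_
    rintro _ ⟨x, hx, rfl⟩
    have h8 : x ∈ φ.ker := by rw [← hT]; exact subset_closure hx
    have h9 : (QuotientGroup.mk' N) (x : G) = 1 := h8
    rwa [← MonoidHom.mem_ker, QuotientGroup.ker_mk'] at h9
  rw [← MonoidHom.map_closure, hT] at h7
  have h8 : Finite φ.ker := by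
    refine Finite.of_injective (fun x : φ.ker => (⟨((x : closure S) : G), x, x.2, rfl⟩ :
      φ.ker.map (closure S).subtype)) ?_
    intro x y hxy
    have := congrArg Subtype.val hxy
    exact Subtype.ext (Subtype.ext this)
  exact (MonoidHom.finite_iff_finite_ker_range φ).2 ⟨h8, h3⟩

theorem lfs_of_comm (hG : ∀ x : G, ∃ n : ℕ, 1 ≤ n ∧ x ^ n = 1) {A : Subgroup G}
    (hA : ∀ a ∈ A, ∀ b ∈ A, a * b = b * a) : LFs A := by
  intro S hS hSA
  have h1 := isMulCommutative_closure (k := S) fun a ha b hb => hA a (hSA ha) b (hSA hb)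
  have hSf : Finite S := hS.to_subtype
  have h4 : Group.FG (closure S) := inferInstance
  let _ : CommGroup (closure S) :=
    { (inferInstance : Group (closure S)) with mul_comm := h1.is_comm.comm }
  refine CommGroup.finite_of_fg_isMulTorsion (G := closure S) ?_
  intro x
  obtain ⟨n, hn, hx⟩ := hG x
  rw [isOfFinOrder_iff_pow_eq_one]
  exact ⟨n, by omega, Subtype.ext (by simpa using hx)⟩

theorem exists_radical : ∃ R : Subgroup G, ∃ _ : R.Normal, LFs R ∧
    ∀ A : Subgroup (G ⧸ R), A.Normal → LFs A → A = ⊥ := by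
  obtain ⟨R, -, hR⟩ := zorn_le_nonempty₀ {N : Subgroup G | N.Normal ∧ LFs N} (by
    intro c hc hch y hy
    have hdir : DirectedOn (· ≤ ·) c := hch.directedOn
    have hmem : ∀ x : G, x ∈ sSup c ↔ ∃ N ∈ c, x ∈ N := fun x =>
      mem_sSup_of_directedOn ⟨y, hy⟩ hdir
    refine ⟨sSup c, ⟨⟨fun n hn g => ?_⟩, fun S hS hSc => ?_⟩, fun z hz => le_sSup hz⟩
    · rw [hmem] at hn ⊢
      obtain ⟨N, hN, hnN⟩ := hn
      exact ⟨N, hN, (hc hN).1.conj_mem n hnN g⟩
    · have h1 : ∃ N ∈ c, (hS.toFinset : Set G) ⊆ (N : Set G) := by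
        refine DirectedOn.exists_mem_subset_of_finset_subset_biUnion
          (f := fun N : Subgroup G => (N : Set G)) ⟨y, hy⟩ hdir ?_
        intro x hx
        rw [Set.Finite.coe_toFinset] at hx
        have := (hmem x).1 (hSc hx)
        simpa using this
      obtain ⟨N, hN, hSN⟩ := h1
      rw [Set.Finite.coe_toFinset] at hSN
      exact (hc hN).2 S hS hSN) ⊥ ⟨inferInstance, fun S hS hSb => by
        have : closure S = ⊥ := by
          rw [eq_bot_iff, closure_le]; exact hSb
        rw [this]; infer_instance⟩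
  obtain ⟨⟨hRn, hRl⟩, hmax⟩ := hR
  refine ⟨R, hRn, hRl, fun A hA hAl => ?_⟩
  have h1 : LFs (A.comap (QuotientGroup.mk' R)) := by
    apply lfs_ext hRl
    rwa [map_comap_eq_self_of_surjective (QuotientGroup.mk'_surjective R)]
  have h2 : A.comap (QuotientGroup.mk' R) ≤ R :=
    hmax ⟨inferInstance, h1⟩ (QuotientGroup.le_comap_mk' R A)
  rw [eq_bot_iff]
  intro a ha
  obtain ⟨x, rfl⟩ := QuotientGroup.mk'_surjective R a
  have h3 : x ∈ R := h2 ha
  rw [mem_bot]
  rwa [← MonoidHom.mem_ker, QuotientGroup.ker_mk']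

/-- Let `G` be periodic. If every nontrivial quotient of `G` has a nontrivial element commuting
with all its conjugates, then `G` is locally finite. -/
theorem lf_of_quotients (hG : ∀ x : G, ∃ n : ℕ, 1 ≤ n ∧ x ^ n = 1)
    (h : ∀ (R : Subgroup G) [R.Normal], LFs R → R ≠ ⊤ →
      (∀ A : Subgroup (G ⧸ R), A.Normal → LFs A → A = ⊥) →
      ∃ w : G ⧸ R, w ≠ 1 ∧ ∀ g : G ⧸ R, Commute w (g * w * g⁻¹)) :
    ∀ S : Set G, S.Finite → Finite (closure S) := by
  obtain ⟨R, hRn, hRl, hR⟩ := exists_radical (G := G)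
  by_cases htop : R = ⊤
  · intro S hS
    exact hRl S hS (by rw [htop]; exact Set.subset_univ _)
  · exfalso
    obtain ⟨w, hw1, hw⟩ := h R hRl htop hR
    have h1 := comm_normalClosure hw
    have h2 : ∀ x : G ⧸ R, ∃ n : ℕ, 1 ≤ n ∧ x ^ n = 1 := by
      intro x
      obtain ⟨y, rfl⟩ := QuotientGroup.mk'_surjective R x
      obtain ⟨n, hn, hy⟩ := hG y
      exact ⟨n, hn, by rw [← map_pow, hy, map_one]⟩
    have h3 := hR (normalClosure {w}) inferInstance (lfs_of_comm h2 h1)
    apply hw1
    rw [← mem_bot, ← h3]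
    exact subset_normalClosure rfl

end

end Pool.Agent.N52.HA
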